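import Mathlib

set_option autoImplicit false

namespace Pool.Agent.H303.FL

/-- The Farey sequence of order `n` in `(0,1]`, as a finite set of rationals (verbatim as in the
frozen statement `S11927`). -/
def farey (n : ℕ) : Finset ℚ :=
  ((Finset.Icc 1 n ×ˢ Finset.Icc 1 n).image
    (fun p : ℕ × ℕ => (p.1 : ℚ) / (p.2 : ℚ))).filter (fun q : ℚ => q ≤ 1)

/-- The Franel–Landau sum `D(n) = ∑ |f_i - i/A(n)|`. -/
noncomputable def D (n : ℕ) : ℝ :=
  ∑ j : Fin (farey n).card,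
    |(((farey n).orderEmbOfFin rfl j : ℚ) : ℝ) - ((j : ℕ) + 1 : ℝ) / ((farey n).card : ℝ)|

/-- The Mertens function `M(m) = ∑_{k ≤ m} μ(k)`. -/
noncomputable def M (m : ℕ) : ℝ := ∑ k ∈ Finset.Icc 1 m, (ArithmeticFunction.moebius k : ℝ)

end Pool.Agent.H303.FL
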